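import Pool.Agent.X45.EI.Hall

/-! Covering all edges of a bipartite graph by `k` matchings of size exactly `m`. -/

namespace Pool.Agent.X45.EI

open Finset

/-- core: bipartite relation `R` between `A` and `B` -/
theorem core {A B : Type*} [Fintype A] [Fintype B] [DecidableEq A] [DecidableEq B]
    (R : A → B → Prop) [DecidableRel R] (k m : ℕ)
    (hA : ∀ a, (univ.filter (fun b => R a b)).card ≤ k)
    (hB : ∀ b, (univ.filter (fun a => R a b)).card ≤ k)
    (hE : ∑ a, (univ.filter (fun b => R a b)).card ≤ k * m)
    (hmA : m ≤ Fintype.card A) (hmB : m ≤ Fintype.card B)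
    (hC : ∀ S : Finset A,
      (∑ a ∈ Sᶜ, (univ.filter (fun b => R a b ∧ ∃ a' ∈ S, R a' b)).card) + k * m ≤
        k * (Sᶜ.card + (univ.filter (fun b => ∃ a ∈ S, R a b)).card)) :
    ∃ σ : Fin k → A → Option B, (∀ i a b, σ i a = some b → R a b) ∧
      (∀ i a a' b, σ i a = some b → σ i a' = some b → a = a') ∧
      (∀ i, (univ.filter (fun a => (σ i a).isSome)).card = m) ∧
      ∀ a b, R a b → ∃ i, σ i a = some b := by
  classical
  obtain ⟨q, hq⟩ := Nat.exists_eq_add_of_le hmA
  obtain ⟨p, hp⟩ := Nat.exists_eq_add_of_le hmB
  set dA : A → ℕ := fun a => (univ.filter (fun b => R a b)).card with hdA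
  set dB : B → ℕ := fun b => (univ.filter (fun a => R a b)).card with hdB
  have hdbl : ∑ a, dA a = ∑ b, dB b := by
    simp only [hdA, hdB, card_filter]
    exact Finset.sum_comm
  let r : A ⊕ Fin p → ℕ := Sum.elim (fun a => k - dA a) (fun _ => k)
  let c : B ⊕ Fin q → ℕ := Sum.elim (fun b => k - dB b) (fun _ => k)
  let R' : A ⊕ Fin p → B ⊕ Fin q → Prop := fun x y => match x, y with
    | Sum.inl a, Sum.inl b => R a b
    | Sum.inl _, Sum.inr _ => True
    | Sum.inr _, Sum.inl _ => True
    | Sum.inr _, Sum.inr _ => False
  have hrA : ∀ S : Finset A, ∑ a ∈ S, (k - dA a) + ∑ a ∈ S, dA a = k * S.card := by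
    intro S
    rw [← Finset.sum_add_distrib, mul_comm, ← smul_eq_mul, ← Finset.sum_const]
    exact Finset.sum_congr rfl fun a _ => Nat.sub_add_cancel (hA a)
  have hrB : ∀ S : Finset B, ∑ b ∈ S, (k - dB b) + ∑ b ∈ S, dB b = k * S.card := by
    intro S
    rw [← Finset.sum_add_distrib, mul_comm, ← smul_eq_mul, ← Finset.sum_const]
    exact Finset.sum_congr rfl fun b _ => Nat.sub_add_cancel (hB b)
  have htot : ∑ x, r x = ∑ y, c y := by
    simp only [r, c, Fintype.sum_sum_type, Sum.elim_inl, Sum.elim_inr, Finset.sum_const,
      card_univ, Fintype.card_fin, smul_eq_mul]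
    have h1 := hrA univ
    have h2 := hrB univ
    simp only [card_univ] at h1 h2
    rw [hq] at h1
    rw [hp] at h2
    nlinarith [hdbl]
  have hhall : ∀ S : Finset (A ⊕ Fin p), ∑ x ∈ S, r x ≤
      ∑ y ∈ univ.filter (fun y => ∃ x ∈ S, R' x y), c y := by
    intro S
    by_cases h1 : ∃ a, Sum.inl a ∈ S
    · obtain ⟨a0, ha0⟩ := h1
      by_cases h2 : ∃ i, Sum.inr i ∈ S
      · obtain ⟨i0, hi0⟩ := h2
        have hu : univ.filter (fun y => ∃ x ∈ S, R' x y) = univ := by
          refine Finset.filter_true_of_mem fun y _ => ?_
          rcases y with b | j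
          · exact ⟨_, hi0, trivial⟩
          · exact ⟨_, ha0, trivial⟩
        rw [hu, ← htot]
        exact Finset.sum_le_sum_of_subset (subset_univ _)
      · -- only left elements
        push Not at h2
        set S1 : Finset A := univ.filter (fun a => Sum.inl a ∈ S) with hS1
        have hS : S = S1.map ⟨Sum.inl, Sum.inl_injective⟩ := by
          ext x
          rcases x with a | i
          · simp [hS1]
          · simp [h2 i]
        have hN : univ.filter (fun y => ∃ x ∈ S, R' x y) =
            (univ.filter (fun b => ∃ a ∈ S1, R a b)).map ⟨Sum.inl, Sum.inl_injective⟩ ∪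
            (univ : Finset (Fin q)).map ⟨Sum.inr, Sum.inr_injective⟩ := by
          ext y
          rcases y with b | j
          · simp only [mem_filter, mem_univ, true_and, mem_union, mem_map, Function.Embedding.coeFn_mk,
              Sum.inl.injEq, exists_eq_right, reduceCtorEq, and_false, exists_false, or_false]
            constructor
            · rintro ⟨x, hx, hR⟩
              rcases x with a | i
              · exact ⟨a, by simp [hS1, hx], hR⟩
              · exact absurd hx (h2 i)
            · rintro ⟨a, ha, hR⟩
              exact ⟨Sum.inl a, by simpa [hS1] using ha, hR⟩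
          · simp only [mem_filter, mem_univ, true_and, mem_union, mem_map, Function.Embedding.coeFn_mk,
              reduceCtorEq, and_false, exists_false, Sum.inr.injEq, false_or]
            exact ⟨fun _ => ⟨j, rfl⟩, fun _ => ⟨Sum.inl a0, ha0, trivial⟩⟩
        rw [hN, Finset.sum_union (by
          rw [Finset.disjoint_left]
          intro y hy
          simp only [mem_map, Function.Embedding.coeFn_mk] at hy ⊢
          obtain ⟨b, _, rfl⟩ := hy
          simp)]
        rw [hS, Finset.sum_map, Finset.sum_map, Finset.sum_map]
        simp only [Function.Embedding.coeFn_mk, r, c, Sum.elim_inl, Sum.elim_inr, Finset.sum_const,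
          card_univ, Fintype.card_fin, smul_eq_mul]
        set N : Finset B := univ.filter (fun b => ∃ a ∈ S1, R a b) with hN1
        have e1 := hrA S1
        have e2 := hrB N
        have e3 := hC S1
        -- edges
        have e4 : ∑ b ∈ N, dB b = ∑ a ∈ S1, dA a +
            ∑ a ∈ S1ᶜ, (univ.filter (fun b => R a b ∧ ∃ a' ∈ S1, R a' b)).card := by
          have f1 : ∑ b ∈ N, dB b = ∑ a, (univ.filter (fun b => R a b ∧ ∃ a' ∈ S1, R a' b)).card := by
            simp only [hdB, card_filter]
            rw [Finset.sum_comm]
            refine Finset.sum_congr rfl fun a _ => ?_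
            rw [hN1, Finset.sum_filter]
            refine Finset.sum_congr rfl fun b _ => ?_
            by_cases hx : ∃ a' ∈ S1, R a' b
            · simp [hx]
            · simp [hx]
          rw [f1, ← Finset.sum_add_sum_compl S1]
          congr 1
          refine Finset.sum_congr rfl fun a ha => ?_
          simp only [hdA]
          congr 1
          ext b
          simp only [mem_filter, mem_univ, true_and]
          exact ⟨fun h => h.1, fun h => ⟨h, a, ha, h⟩⟩
        have e5 : S1.card + S1ᶜ.card = m + q := by
          rw [Finset.card_add_card_compl, hq]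
        change _ + k * m ≤ k * (S1ᶜ.card + N.card) at e3
        have e6 : k * (S1.card + S1ᶜ.card) = k * (m + q) := by rw [e5]
        nlinarith
    · push Not at h1
      by_cases h2 : ∃ i, Sum.inr i ∈ S
      · obtain ⟨i0, hi0⟩ := h2
        have hsub : (univ : Finset B).map ⟨Sum.inl, Sum.inl_injective⟩ ⊆
            univ.filter (fun y => ∃ x ∈ S, R' x y) := by
          intro y hy
          simp only [mem_map, mem_univ, true_and, Function.Embedding.coeFn_mk] at hy
          obtain ⟨b, rfl⟩ := hy
          simp only [mem_filter, mem_univ, true_and]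
          exact ⟨_, hi0, trivial⟩
        have hS : S ⊆ (univ : Finset (Fin p)).map ⟨Sum.inr, Sum.inr_injective⟩ := by
          intro x hx
          rcases x with a | i
          · exact absurd hx (h1 a)
          · simp
        refine (Finset.sum_le_sum_of_subset hS).trans
          (le_trans ?_ (Finset.sum_le_sum_of_subset hsub))
        rw [Finset.sum_map, Finset.sum_map]
        simp only [Function.Embedding.coeFn_mk, r, c, Sum.elim_inl, Sum.elim_inr, Finset.sum_const,
          card_univ, Fintype.card_fin, smul_eq_mul]
        have e2 := hrB univ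
        rw [card_univ, hp] at e2
        have e1 : ∑ b, dB b ≤ k * m := hdbl ▸ hE
        nlinarith
      · push Not at h2
        have : S = ∅ := by
          ext x
          rcases x with a | i
          · simp [h1 a]
          · simp [h2 i]
        rw [this]
        simp
  obtain ⟨Z, hZr, hZc, hZ0⟩ := transport r c R' hhall htot
  let Y : A ⊕ Fin p → B ⊕ Fin q → ℕ := fun x y => Z x y + match x, y with
    | Sum.inl a, Sum.inl b => if R a b then 1 else 0
    | _, _ => 0
  have hYr : ∀ x, ∑ y, Y x y = k := by
    intro x
    rcases x with a | i
    · simp only [Y, Finset.sum_add_distrib]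
      rw [hZr]
      simp only [r, Sum.elim_inl, Fintype.sum_sum_type, Finset.sum_const_zero, add_zero]
      rw [← card_filter]
      exact Nat.sub_add_cancel (hA a)
    · simp only [Y, Finset.sum_add_distrib]
      rw [hZr]
      simp [r]
  have hYc : ∀ y, ∑ x, Y x y = k := by
    intro y
    rcases y with b | j
    · simp only [Y, Finset.sum_add_distrib]
      rw [hZc]
      simp only [c, Sum.elim_inl, Fintype.sum_sum_type, Finset.sum_const_zero, add_zero]
      rw [← card_filter]
      exact Nat.sub_add_cancel (hB b)
    · simp only [Y, Finset.sum_add_distrib]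
      rw [hZc]
      simp [c]
  have hcard : Fintype.card (A ⊕ Fin p) = Fintype.card (B ⊕ Fin q) := by
    simp only [Fintype.card_sum, Fintype.card_fin]
    omega
  obtain ⟨σ, hσb, hσ, hσc⟩ := decompose hcard k Y hYr hYc
  have hYR : ∀ x y, Y x y ≠ 0 → R' x y := by
    intro x y hxy
    by_cases hz : Z x y = 0
    · rcases x with a | i <;> rcases y with b | j
      · simp only [Y, hz, zero_add] at hxy
        by_contra hc'
        have : ¬ R a b := hc'
        simp [this] at hxy
      · trivial
      · trivial
      · simp [Y, hz] at hxy
    · exact hZ0 x y hz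
  refine ⟨fun i a => Sum.elim some (fun _ => none) (σ i (Sum.inl a)), ?_, ?_, ?_, ?_⟩
  · intro i a b h
    rcases hs : σ i (Sum.inl a) with b' | j
    · simp only [hs, Sum.elim_inl, Option.some.injEq] at h
      subst h
      have h1 := hYR _ _ (hσ i (Sum.inl a))
      rw [hs] at h1
      exact h1
    · simp [hs] at h
  · intro i a a' b h h'
    have e1 : σ i (Sum.inl a) = Sum.inl b := by
      rcases hs : σ i (Sum.inl a) with b' | j
      · simp only [hs, Sum.elim_inl, Option.some.injEq] at h
        rw [h]
      · simp [hs] at h
    have e2 : σ i (Sum.inl a') = Sum.inl b := by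
      rcases hs : σ i (Sum.inl a') with b' | j
      · simp only [hs, Sum.elim_inl, Option.some.injEq] at h'
        rw [h']
      · simp [hs] at h'
    exact Sum.inl_injective ((hσb i).1 (e1.trans e2.symm))
  · intro i
    -- elements of A going to the right part are exactly q many
    have h1 : (univ.filter (fun a : A => ¬ (Sum.elim some (fun _ => none)
        (σ i (Sum.inl a)) : Option B).isSome)).card = q := by
      have hbij : (univ.filter (fun a : A => ¬ (Sum.elim some (fun _ => none)
          (σ i (Sum.inl a)) : Option B).isSome)).card = (univ : Finset (Fin q)).card := by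
        have hpre : ∀ j : Fin q, ∃ a : A, σ i (Sum.inl a) = Sum.inr j := by
          intro j
          obtain ⟨x, hx⟩ := (hσb i).2 (Sum.inr j)
          rcases x with a | l
          · exact ⟨a, hx⟩
          · have h2 := hYR _ _ (hσ i (Sum.inr l))
            rw [hx] at h2
            exact absurd h2 (by simp [R'])
        choose g hg using hpre
        symm
        refine Finset.card_bij (fun j _ => g j) ?_ ?_ ?_
        · intro j _
          simp [hg j]
        · intro j _ j' _ hjj
          have := hg j
          rw [hjj, hg j'] at this
          exact (Sum.inr_injective this).symm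
        · intro a ha
          simp only [mem_filter, mem_univ, true_and] at ha
          rcases hs : σ i (Sum.inl a) with b' | j
          · simp [hs] at ha
          · refine ⟨j, mem_univ _, ?_⟩
            exact Sum.inl_injective ((hσb i).1 ((hg j).trans hs.symm))
      rw [hbij, card_univ, Fintype.card_fin]
    have h2 := Finset.card_filter_add_card_filter_not (s := (univ : Finset A))
      (p := fun a : A => (Sum.elim some (fun _ => none)
        (σ i (Sum.inl a)) : Option B).isSome = true)
    rw [h1, card_univ, hq] at h2
    show (univ.filter (fun a : A => (Sum.elim some (fun _ => none)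
        (σ i (Sum.inl a)) : Option B).isSome = true)).card = m
    omega
  · intro a b hab
    obtain ⟨i, hi⟩ := hσc (Sum.inl a) (Sum.inl b) (by simp [Y, hab])
    exact ⟨i, by simp [hi]⟩

end Pool.Agent.X45.EI
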