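import Mathlib

/-! Definitions for the excessive `[m]`-index. -/

namespace Pool.Agent.X45.EI

variable {V : Type*}

/-- `M` is an `[m]`-matching of `G`: a set of exactly `m` edges of `G`, no two of which have a
common vertex -/
def IsMatching (G : SimpleGraph V) (m : ℕ) (M : Finset (Sym2 V)) : Prop :=
  M.card = m ∧ (∀ e ∈ M, e ∈ G.edgeSet) ∧ ∀ e ∈ M, ∀ f ∈ M, e ≠ f → ∀ v ∈ e, v ∉ f

/-- `G` is `[m]`-coverable: every edge lies in some `[m]`-matching -/
def Coverable (G : SimpleGraph V) (m : ℕ) : Prop :=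
  ∀ e ∈ G.edgeSet, ∃ M, IsMatching G m M ∧ e ∈ M

/-- the union of some `k` `[m]`-matchings of `G` is the whole edge set -/
def CoveredBy (G : SimpleGraph V) (m k : ℕ) : Prop :=
  ∃ M : Fin k → Finset (Sym2 V), (∀ i, IsMatching G m (M i)) ∧ ∀ e, e ∈ G.edgeSet ↔ ∃ i, e ∈ M i

/-- the chromatic index: the least number of colours of a proper edge colouring -/
noncomputable def chromaticIndex (G : SimpleGraph V) : ℕ :=
  sInf {k | ∃ c : Sym2 V → ℕ, (∀ e ∈ G.edgeSet, c e < k) ∧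
    ∀ e ∈ G.edgeSet, ∀ f ∈ G.edgeSet, e ≠ f → (∃ v, v ∈ e ∧ v ∈ f) → c e ≠ c f}

/-- `S` is (the edge set of) a `t`-splitting set of `G` (with respect to `m`) -/
def IsSplitting (G : SimpleGraph V) (m t : ℕ) (S : Finset (Sym2 V)) : Prop :=
  (∀ e ∈ S, e ∈ G.edgeSet) ∧ (∃ N ⊆ S, IsMatching G (t + 1) N) ∧
    ∀ N ⊆ S, IsMatching G (t + 1) N → ¬ ∃ M, IsMatching G m M ∧ N ⊆ M

/-- `s^t(G)`: the largest number of edges of a `t`-splitting set (`0` if there is none) -/
noncomputable def splitSize (G : SimpleGraph V) (m t : ℕ) : ℕ :=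
  sSup {s | ∃ S, IsSplitting G m t S ∧ S.card = s}

/-- the right hand side of the conjectured formula -/
noncomputable def formula (G : SimpleGraph V) (m : ℕ) : ℕ :=
  max (chromaticIndex G) (max (Nat.card G.edgeSet ⌈/⌉ m)
    ((Finset.Icc 1 (m - 1)).sup fun t => splitSize G m t ⌈/⌉ t))

end Pool.Agent.X45.EI
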