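import Mathlib

/-! Transportation and decomposition lemmas from Hall's theorem. -/

namespace Pool.Agent.X45.EI

open Finset

/-- integer transportation matrices with a prescribed support, from Hall's theorem -/
theorem transport {α β : Type*} [Fintype α] [Fintype β] [DecidableEq α] [DecidableEq β]
    (r : α → ℕ) (c : β → ℕ) (R : α → β → Prop) [DecidableRel R]
    (h : ∀ S : Finset α, ∑ a ∈ S, r a ≤
      ∑ b ∈ univ.filter (fun b => ∃ a ∈ S, R a b), c b)
    (htot : ∑ a, r a = ∑ b, c b) :
    ∃ Z : α → β → ℕ, (∀ a, ∑ b, Z a b = r a) ∧ (∀ b, ∑ a, Z a b = c b) ∧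
      ∀ a b, Z a b ≠ 0 → R a b := by
  classical
  let t : (Σ a : α, Fin (r a)) → Finset (Σ b : β, Fin (c b)) := fun x =>
    (univ.filter (fun b => R x.1 b)).sigma fun _ => univ
  have hall : ∀ s : Finset (Σ a : α, Fin (r a)), s.card ≤ (s.biUnion t).card := by
    intro s
    have h1 : s ⊆ (s.image Sigma.fst).sigma fun _ => univ := by
      intro x hx
      simp only [mem_sigma, mem_image, mem_univ, and_true]
      exact ⟨x, hx, rfl⟩
    have h2 : s.card ≤ ∑ a ∈ s.image Sigma.fst, r a := by
      refine (card_le_card h1).trans ?_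
      simp [card_sigma]
    have h3 : (s.biUnion t) =
        (univ.filter (fun b => ∃ a ∈ s.image Sigma.fst, R a b)).sigma fun _ => univ := by
      ext y
      simp only [t, mem_biUnion, mem_sigma, mem_filter, mem_univ, true_and, and_true, mem_image]
      constructor
      · rintro ⟨x, hx, hR⟩
        exact ⟨x.1, ⟨x, hx, rfl⟩, hR⟩
      · rintro ⟨a, ⟨x, hx, rfl⟩, hR⟩
        exact ⟨x, hx, hR⟩
    rw [h3, card_sigma]
    refine h2.trans ((h _).trans ?_)
    simp
  obtain ⟨f, hf, hft⟩ := (Finset.all_card_le_biUnion_card_iff_exists_injective t).1 hall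
  have hfR : ∀ x, R x.1 (f x).1 := by
    intro x
    have := hft x
    simp only [t, mem_sigma, mem_filter, mem_univ, true_and, and_true] at this
    exact this
  let Z : α → β → ℕ := fun a b => (univ.filter (fun i : Fin (r a) => (f ⟨a, i⟩).1 = b)).card
  have hrow : ∀ a, ∑ b, Z a b = r a := by
    intro a
    have := Finset.card_eq_sum_card_fiberwise (s := (univ : Finset (Fin (r a))))
      (t := (univ : Finset β)) (f := fun i => (f ⟨a, i⟩).1) (fun _ _ => by simp)
    simp only [card_univ, Fintype.card_fin] at this
    exact this.symm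
  have hcol' : ∀ b, ∑ a, Z a b ≤ c b := by
    intro b
    have h1 : ∑ a, Z a b = (univ.filter (fun x : (Σ a : α, Fin (r a)) => (f x).1 = b)).card := by
      have : (univ.filter (fun x : (Σ a : α, Fin (r a)) => (f x).1 = b)) =
          (univ : Finset α).sigma
            (fun a => univ.filter (fun i : Fin (r a) => (f ⟨a, i⟩).1 = b)) := by
        ext x
        simp
      rw [this, card_sigma]
    rw [h1]
    have h2 : (univ.filter (fun x : (Σ a : α, Fin (r a)) => (f x).1 = b)).image f ⊆
        ({b} : Finset β).sigma fun _ => univ := by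
      intro y hy
      simp only [mem_image, mem_filter, mem_univ, true_and] at hy
      obtain ⟨x, hx, rfl⟩ := hy
      simp [hx]
    have h3 := card_le_card h2
    rw [card_image_of_injective _ hf] at h3
    simpa using h3
  have hsum : ∑ b, ∑ a, Z a b = ∑ b, c b := by
    rw [Finset.sum_comm, ← htot]
    exact Finset.sum_congr rfl fun a _ => hrow a
  have hcol : ∀ b, ∑ a, Z a b = c b := by
    have := (Finset.sum_eq_sum_iff_of_le (fun b _ => hcol' b)).1 hsum
    exact fun b => this b (mem_univ b)
  refine ⟨Z, hrow, hcol, fun a b hZ => ?_⟩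
  obtain ⟨i, hi⟩ := Finset.card_pos.1 (Nat.pos_of_ne_zero hZ)
  simp only [mem_filter, mem_univ, true_and] at hi
  rw [← hi]
  exact hfR ⟨a, i⟩

/-- a nonnegative integer matrix with all line sums `k` is a sum of `k` permutation matrices -/
theorem decompose {α β : Type*} [Fintype α] [Fintype β] [DecidableEq α] [DecidableEq β]
    (hc : Fintype.card α = Fintype.card β) :
    ∀ (k : ℕ) (Y : α → β → ℕ), (∀ a, ∑ b, Y a b = k) → (∀ b, ∑ a, Y a b = k) →
      ∃ σ : Fin k → α → β, (∀ i, Function.Bijective (σ i)) ∧ (∀ i a, Y a (σ i a) ≠ 0) ∧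
        ∀ a b, Y a b ≠ 0 → ∃ i, σ i a = b := by
  intro k
  induction k with
  | zero =>
    intro Y hr _
    refine ⟨fun i => i.elim0, fun i => i.elim0, fun i => i.elim0, fun a b h => ?_⟩
    exact absurd (Finset.sum_eq_zero_iff.1 (hr a) b (mem_univ b)) h
  | succ k ih =>
    intro Y hr hcl
    have hall : ∀ s : Finset α, s.card ≤
        (s.biUnion (fun a => univ.filter (fun b => Y a b ≠ 0))).card := by
      intro s
      set N := s.biUnion (fun a => univ.filter (fun b => Y a b ≠ 0)) with hN
      have h1 : (k + 1) * s.card = ∑ a ∈ s, ∑ b ∈ N, Y a b := by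
        rw [mul_comm, ← smul_eq_mul, ← Finset.sum_const]
        refine Finset.sum_congr rfl fun a ha => ?_
        rw [← hr a]
        symm
        refine Finset.sum_subset (subset_univ _) fun b _ hb => ?_
        by_contra hne
        apply hb
        rw [hN, mem_biUnion]
        exact ⟨a, ha, by simp [hne]⟩
      have h2 : ∑ a ∈ s, ∑ b ∈ N, Y a b ≤ (k + 1) * N.card := by
        rw [Finset.sum_comm, mul_comm, ← smul_eq_mul, ← Finset.sum_const]
        refine Finset.sum_le_sum fun b _ => ?_
        rw [← hcl b]
        exact Finset.sum_le_sum_of_subset (subset_univ _)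
      exact Nat.le_of_mul_le_mul_left (h1.le.trans h2) (Nat.succ_pos k)
    obtain ⟨f, hf, hft⟩ := (Finset.all_card_le_biUnion_card_iff_exists_injective _).1 hall
    have hfb : Function.Bijective f := (Fintype.bijective_iff_injective_and_card f).2 ⟨hf, hc⟩
    have hft' : ∀ a, Y a (f a) ≠ 0 := by
      intro a
      have := hft a
      simpa using this
    let Y' : α → β → ℕ := fun a b => Y a b - (if f a = b then 1 else 0)
    have hYY : ∀ a b, Y a b = Y' a b + (if f a = b then 1 else 0) := by
      intro a b
      simp only [Y']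
      split_ifs with h
      · have := hft' a
        rw [h] at this
        omega
      · simp
    have hr' : ∀ a, ∑ b, Y' a b = k := by
      intro a
      have h1 := hr a
      rw [Finset.sum_congr rfl (fun b _ => hYY a b), Finset.sum_add_distrib] at h1
      simp at h1
      exact h1
    have hc' : ∀ b, ∑ a, Y' a b = k := by
      intro b
      have h1 := hcl b
      rw [Finset.sum_congr rfl (fun a _ => hYY a b), Finset.sum_add_distrib] at h1
      obtain ⟨a0, ha0⟩ := hfb.2 b
      have h2 : ∑ a, (if f a = b then 1 else 0) = 1 := by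
        rw [← ha0]
        simp [hf.eq_iff]
      rw [h2] at h1
      omega
    obtain ⟨σ, h1, h2, h3⟩ := ih Y' hr' hc'
    refine ⟨Fin.cons f σ, ?_, ?_, ?_⟩
    · intro i
      refine Fin.cases ?_ ?_ i
      · exact hfb
      · intro j
        simpa using h1 j
    · intro i a
      refine Fin.cases ?_ ?_ i
      · simpa using hft' a
      · intro j
        simp only [Fin.cons_succ]
        have := h2 j a
        rw [hYY]
        omega
    · intro a b hab
      by_cases h : f a = b
      · exact ⟨0, by simpa using h⟩
      · rw [hYY, if_neg h] at hab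
        obtain ⟨i, hi⟩ := h3 a b (by simpa using hab)
        exact ⟨i.succ, by simpa using hi⟩

end Pool.Agent.X45.EI
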