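import Pool.Agent.X45.EI.Core
import Pool.Agent.X45.EI.Defs

namespace Pool.Agent.X45.EI

open Finset

variable {V : Type*}

theorem IsMatching.subset {G : SimpleGraph V} {m t : ℕ} {M N : Finset (Sym2 V)}
    (h : IsMatching G m M) (hN : N ⊆ M) (hc : N.card = t) : IsMatching G t N :=
  ⟨hc, fun e he => h.2.1 e (hN he), fun e he f hf => h.2.2 e (hN he) f (hN hf)⟩

theorem natCard_edges [Fintype V] [DecidableEq V] (G : SimpleGraph V) [DecidableRel G.Adj] :
    Nat.card G.edgeSet = G.edgeFinset.card := by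
  rw [Nat.card_eq_fintype_card, ← SimpleGraph.edgeFinset_card]

theorem exists_colouring [Finite V] (G : SimpleGraph V) :
    ∃ c : Sym2 V → ℕ, (∀ e ∈ G.edgeSet, c e < chromaticIndex G) ∧
    ∀ e ∈ G.edgeSet, ∀ f ∈ G.edgeSet, e ≠ f → (∃ v, v ∈ e ∧ v ∈ f) → c e ≠ c f := by
  classical
  have := Fintype.ofFinite V
  have hne : {k | ∃ c : Sym2 V → ℕ, (∀ e ∈ G.edgeSet, c e < k) ∧
    ∀ e ∈ G.edgeSet, ∀ f ∈ G.edgeSet, e ≠ f → (∃ v, v ∈ e ∧ v ∈ f) → c e ≠ c f}.Nonempty := by
    refine ⟨Fintype.card (Sym2 V), fun e => (Fintype.equivFin (Sym2 V) e).val, ?_, ?_⟩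
    · intro e _
      exact (Fintype.equivFin (Sym2 V) e).isLt
    · intro e _ f _ hef _ h
      exact hef ((Fintype.equivFin (Sym2 V)).injective (Fin.ext h))
  exact Nat.sInf_mem hne

/-! ### lower bounds -/

theorem inter_le {G : SimpleGraph V} [DecidableEq V] {m t : ℕ} {S M : Finset (Sym2 V)}
    (hS : IsSplitting G m t S) (hM : IsMatching G m M) : (S ∩ M).card ≤ t := by
  by_contra h
  push Not at h
  obtain ⟨N, hN, hc⟩ := Finset.exists_subset_card_eq (Nat.succ_le_of_lt h)
  have h1 : N ⊆ S := hN.trans inter_subset_left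
  have h2 : N ⊆ M := hN.trans inter_subset_right
  exact hS.2.2 N h1 (hM.subset h2 hc) ⟨M, hM, h2⟩

theorem splitSize_le [Finite V] {G : SimpleGraph V} {m t k : ℕ} (h : CoveredBy G m k) :
    splitSize G m t ≤ t * k := by
  classical
  have := Fintype.ofFinite V
  obtain ⟨M, hM, hc⟩ := h
  refine csSup_le' ?_
  rintro s ⟨S, hS, rfl⟩
  have h1 : S ⊆ (univ : Finset (Fin k)).biUnion fun i => S ∩ M i := by
    intro e he
    obtain ⟨i, hi⟩ := (hc e).1 (hS.1 e he)
    exact mem_biUnion.2 ⟨i, mem_univ _, mem_inter.2 ⟨he, hi⟩⟩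
  refine (card_le_card h1).trans (card_biUnion_le.trans ?_)
  refine (Finset.sum_le_sum fun i _ => inter_le hS (hM i)).trans ?_
  simp [mul_comm]

theorem formula_le [Finite V] {G : SimpleGraph V} {m k : ℕ} (hm : 1 ≤ m)
    (h : CoveredBy G m k) : formula G m ≤ k := by
  classical
  have := Fintype.ofFinite V
  refine max_le ?_ (max_le ?_ ?_)
  · obtain ⟨M, hM, hc⟩ := h
    refine Nat.sInf_le ⟨fun e => if h : ∃ i, e ∈ M i then (h.choose : Fin k).val else 0, ?_, ?_⟩
    · intro e he
      have h := (hc e).1 he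
      simp only [h, dif_pos]
      exact (h.choose).isLt
    · intro e he f hf hef ⟨v, hve, hvf⟩ heq
      have h1 := (hc e).1 he
      have h2 := (hc f).1 hf
      simp only [h1, h2, dif_pos] at heq
      have h3 := h1.choose_spec
      have h4 := h2.choose_spec
      rw [← Fin.ext heq] at h4
      exact (hM _).2.2 e h3 f h4 hef v hve hvf
  · rw [ceilDiv_le_iff_le_mul (by omega), natCard_edges]
    obtain ⟨M, hM, hc⟩ := h
    have h1 : G.edgeFinset ⊆ (univ : Finset (Fin k)).biUnion M := by
      intro e he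
      obtain ⟨i, hi⟩ := (hc e).1 (SimpleGraph.mem_edgeFinset.1 he)
      exact mem_biUnion.2 ⟨i, mem_univ _, hi⟩
    refine (card_le_card h1).trans (card_biUnion_le.trans ?_)
    rw [Finset.sum_congr rfl fun i _ => (hM i).1]
    simp [mul_comm]
  · refine Finset.sup_le fun t ht => ?_
    rw [mem_Icc] at ht
    rw [ceilDiv_le_iff_le_mul (by omega)]
    exact splitSize_le h

/-! ### upper bound -/

/-- every edge of a matching has an end in the cover, edges inside count twice -/
theorem cover_matching [Fintype V] [DecidableEq V] {G : SimpleGraph V} {m : ℕ}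
    {M : Finset (Sym2 V)} (hM : IsMatching G m M) (C : Finset V)
    (hC : ∀ e ∈ G.edgeSet, ∃ v ∈ e, v ∈ C) :
    m + (M.filter (fun e => ∀ v ∈ e, v ∈ C)).card ≤ C.card := by
  classical
  have h1 : (M.biUnion fun e => C.filter (· ∈ e)).card = ∑ e ∈ M, (C.filter (· ∈ e)).card := by
    refine card_biUnion fun e he f hf hef => Finset.disjoint_left.2 fun v hv hv' => ?_
    rw [mem_filter] at hv hv'
    exact hM.2.2 e he f hf hef v hv.2 hv'.2
  have h2 : (M.biUnion fun e => C.filter (· ∈ e)).card ≤ C.card := by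
    refine card_le_card ?_
    intro v hv
    obtain ⟨e, _, hv⟩ := mem_biUnion.1 hv
    exact (mem_filter.1 hv).1
  have h3 : ∀ e ∈ M, 1 + (if ∀ v ∈ e, v ∈ C then 1 else 0) ≤ (C.filter (· ∈ e)).card := by
    intro e he
    have hadj := hM.2.1 e he
    split_ifs with hall
    · induction e with
      | h u v =>
      have huv : u ≠ v := (SimpleGraph.mem_edgeSet G |>.1 hadj).ne
      have : ({u, v} : Finset V) ⊆ C.filter (· ∈ s(u, v)) := by
        intro w hw
        rw [mem_insert, mem_singleton] at hw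
        rw [mem_filter]
        rcases hw with rfl | rfl
        · exact ⟨hall _ (Sym2.mem_mk_left _ _), Sym2.mem_mk_left _ _⟩
        · exact ⟨hall _ (Sym2.mem_mk_right _ _), Sym2.mem_mk_right _ _⟩
      have h4 := card_le_card this
      rw [card_pair huv] at h4
      exact h4
    · obtain ⟨v, hv, hvC⟩ := hC e hadj
      have : 0 < (C.filter (· ∈ e)).card := card_pos.2 ⟨v, mem_filter.2 ⟨hvC, hv⟩⟩
      omega
  have h5 : ∑ e ∈ M, (1 + (if ∀ v ∈ e, v ∈ C then 1 else 0)) =
      m + (M.filter (fun e => ∀ v ∈ e, v ∈ C)).card := by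
    rw [Finset.sum_add_distrib, ← card_filter, Finset.sum_const, smul_eq_mul, mul_one, hM.1]
  rw [← h5]
  exact (Finset.sum_le_sum h3).trans (h1 ▸ h2)

theorem cover_ineq [Fintype V] [DecidableEq V] {G : SimpleGraph V} [DecidableRel G.Adj] {m : ℕ}
    (hm : 1 ≤ m) (hcov : Coverable G m) {e0 : Sym2 V} (he0 : e0 ∈ G.edgeSet) (C : Finset V)
    (hC : ∀ e ∈ G.edgeSet, ∃ v ∈ e, v ∈ C) :
    (G.edgeFinset.filter (fun e => ∀ v ∈ e, v ∈ C)).card + formula G m * m ≤
      formula G m * C.card := by
  classical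
  set k := formula G m with hk
  set EC := G.edgeFinset.filter (fun e => ∀ v ∈ e, v ∈ C) with hEC
  have hk1 : chromaticIndex G ≤ k := le_max_left _ _
  have hk2 : G.edgeFinset.card ≤ m * k := by
    rw [← natCard_edges, ← ceilDiv_le_iff_le_mul (by omega)]
    exact (le_max_left _ _).trans (le_max_right _ _)
  have hk3 : ∀ t, 1 ≤ t → t ≤ m - 1 → splitSize G m t ≤ t * k := by
    intro t ht1 ht2
    rw [← ceilDiv_le_iff_le_mul (by omega)]
    refine le_trans ?_ ((le_max_right _ _).trans (le_max_right _ _))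
    exact Finset.le_sup (f := fun t => splitSize G m t ⌈/⌉ t) (mem_Icc.2 ⟨ht1, ht2⟩)
  by_cases hE : EC = ∅
  · obtain ⟨M, hM, _⟩ := hcov e0 he0
    have h1 := cover_matching hM C hC
    rw [hE, card_empty, zero_add]
    exact Nat.mul_le_mul_left _ (by omega)
  · obtain ⟨e, he⟩ := Finset.nonempty_iff_ne_empty.2 hE
    have he' := (mem_filter.1 he)
    obtain ⟨M, hM, heM⟩ := hcov e (SimpleGraph.mem_edgeFinset.1 he'.1)
    have h1 := cover_matching hM C hC
    have h2 : 0 < (M.filter (fun e => ∀ v ∈ e, v ∈ C)).card :=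
      card_pos.2 ⟨e, mem_filter.2 ⟨heM, he'.2⟩⟩
    obtain ⟨t, ht⟩ := Nat.exists_eq_add_of_le (show m ≤ C.card by omega)
    have ht1 : 1 ≤ t := by omega
    have key : EC.card ≤ t * k := by
      by_cases htm : t ≤ m - 1
      · by_cases hN : ∃ N ⊆ EC, IsMatching G (t + 1) N
        · have hS : IsSplitting G m t EC := by
            refine ⟨fun e he => SimpleGraph.mem_edgeFinset.1 (mem_filter.1 he).1, hN, ?_⟩
            rintro N hNE hN1 ⟨M, hM, hNM⟩
            have h3 := cover_matching hM C hC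
            have h4 : N ⊆ M.filter (fun e => ∀ v ∈ e, v ∈ C) := by
              intro f hf
              exact mem_filter.2 ⟨hNM hf, (mem_filter.1 (hNE hf)).2⟩
            have h5 := card_le_card h4
            rw [hN1.1] at h5
            omega
          refine le_trans ?_ (hk3 t ht1 htm)
          refine le_csSup ⟨G.edgeFinset.card, ?_⟩ ⟨EC, hS, rfl⟩
          rintro s ⟨S, hS, rfl⟩
          exact card_le_card fun e he => SimpleGraph.mem_edgeFinset.2 (hS.1 e he)
        · obtain ⟨c, hc1, hc2⟩ := exists_colouring G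
          have h3 : EC.card = ∑ i ∈ range (chromaticIndex G), (EC.filter (fun e => c e = i)).card :=
            Finset.card_eq_sum_card_fiberwise (fun e he =>
              mem_coe.2 (mem_range.2 (hc1 e (SimpleGraph.mem_edgeFinset.1 (mem_filter.1 he).1))))
          have h4 : ∀ i ∈ range (chromaticIndex G), (EC.filter (fun e => c e = i)).card ≤ t := by
            intro i _
            by_contra hlt
            push Not at hlt
            obtain ⟨N, hNs, hNc⟩ := Finset.exists_subset_card_eq (Nat.succ_le_of_lt hlt)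
            apply hN
            refine ⟨N, hNs.trans (filter_subset _ _), hNc, ?_, ?_⟩
            · intro e he
              exact SimpleGraph.mem_edgeFinset.1 (mem_filter.1 (mem_filter.1 (hNs he)).1).1
            · intro e he f hf hef v hve hvf
              have e1 := mem_filter.1 (hNs he)
              have e2 := mem_filter.1 (hNs hf)
              refine hc2 e (SimpleGraph.mem_edgeFinset.1 (mem_filter.1 e1.1).1) f
                (SimpleGraph.mem_edgeFinset.1 (mem_filter.1 e2.1).1) hef ⟨v, hve, hvf⟩ ?_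
              rw [e1.2, e2.2]
          rw [h3]
          refine (Finset.sum_le_sum h4).trans ?_
          rw [Finset.sum_const, card_range, smul_eq_mul, mul_comm]
          exact Nat.mul_le_mul_left _ hk1
      · have : EC.card ≤ G.edgeFinset.card := card_le_card (filter_subset _ _)
        have h6 : m * k ≤ t * k := Nat.mul_le_mul_right _ (by omega)
        omega
    rw [ht]
    nlinarith

theorem coveredBy_formula [Finite V] {G : SimpleGraph V} (hG : G.IsBipartite) {m : ℕ}
    (hm : 1 ≤ m) (hcov : Coverable G m) : CoveredBy G m (formula G m) := by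
  classical
  have := Fintype.ofFinite V
  by_cases hedge : ∃ e0, e0 ∈ G.edgeSet
  swap
  · push Not at hedge
    have h0 : CoveredBy G m 0 :=
      ⟨fun i => i.elim0, fun i => i.elim0, fun e => ⟨fun h => absurd h (hedge e),
        fun ⟨i, _⟩ => i.elim0⟩⟩
    have h1 := formula_le hm h0
    rw [Nat.le_zero.1 h1]
    exact h0
  obtain ⟨e0, he0⟩ := hedge
  set k := formula G m with hk
  obtain ⟨col⟩ := hG
  obtain ⟨c, hc1, hc2⟩ := exists_colouring G
  have hk1 : chromaticIndex G ≤ k := le_max_left _ _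
  have hkpos : 0 < k := lt_of_le_of_lt (Nat.zero_le _) (lt_of_lt_of_le (hc1 e0 he0) hk1)
  have hk2 : G.edgeFinset.card ≤ m * k := by
    rw [← natCard_edges, ← ceilDiv_le_iff_le_mul (by omega)]
    exact (le_max_left _ _).trans (le_max_right _ _)
  let A := {v : V // col v = 0}
  let B := {v : V // col v ≠ 0}
  have hAB : ∀ (a : A) (b : B), a.1 ≠ b.1 := fun a b h => b.2 (h ▸ a.2)
  -- an edge has exactly one end in `A`
  have hends : ∀ e ∈ G.edgeSet, ∃ (a : A) (b : B), e = s(a.1, b.1) := by
    intro e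
    induction e with
    | h u v =>
    intro he
    have hadj : G.Adj u v := he
    have hne := col.valid hadj
    by_cases hu : col u = 0
    · exact ⟨⟨u, hu⟩, ⟨v, fun h => hne (hu.trans h.symm)⟩, rfl⟩
    · have hv : col v = 0 := by
        have h1 := (col u).isLt
        have h2 := (col v).isLt
        have h3 : (col u).val ≠ (col v).val := fun h => hne (Fin.ext h)
        have h4 : (col u).val ≠ 0 := fun h => hu (Fin.ext h)
        exact Fin.ext (show (col v).val = 0 by omega)
      exact ⟨⟨v, hv⟩, ⟨u, hu⟩, Sym2.eq_swap⟩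
  have hinj : ∀ (a a' : A) (b b' : B), s(a.1, b.1) = s(a'.1, b'.1) → a = a' ∧ b = b' := by
    intro a a' b b' h
    rcases Sym2.eq_iff.1 h with ⟨h1, h2⟩ | ⟨h1, _⟩
    · exact ⟨Subtype.ext h1, Subtype.ext h2⟩
    · exact absurd h1 (hAB a b')
  let R : A → B → Prop := fun a b => G.Adj a.1 b.1
  -- total number of edges
  have hEsum : ∑ a : A, (univ.filter (fun b : B => R a b)).card ≤ k * m := by
    have h1 : ∑ a : A, (univ.filter (fun b : B => R a b)).card =
        ((univ : Finset A).sigma fun a => univ.filter (fun b : B => R a b)).card := by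
      rw [card_sigma]
    rw [h1, mul_comm]
    refine le_trans ?_ hk2
    refine Finset.card_le_card_of_injOn (fun x => s(x.1.1, x.2.1)) ?_ ?_
    · intro x hx
      simp only [coe_sigma, coe_univ, Set.mem_sigma_iff, Set.mem_univ, true_and, coe_filter,
        mem_univ, Set.mem_ofPred_eq] at hx
      exact mem_coe.2 (SimpleGraph.mem_edgeFinset.2 hx)
    · rintro ⟨a, b⟩ _ ⟨a', b'⟩ _ h
      obtain ⟨rfl, rfl⟩ := hinj a a' b b' h
      rfl
  have hdA : ∀ a : A, (univ.filter (fun b : B => R a b)).card ≤ k := by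
    intro a
    refine le_trans ?_ hk1
    rw [← card_range (chromaticIndex G)]
    refine Finset.card_le_card_of_injOn (fun b => c s(a.1, b.1)) ?_ ?_
    · intro b hb
      simp only [coe_filter, mem_univ, true_and, Set.mem_ofPred_eq] at hb
      exact mem_coe.2 (mem_range.2 (hc1 _ hb))
    · intro b hb b' hb' h
      simp only [coe_filter, mem_univ, true_and, Set.mem_ofPred_eq] at hb hb'
      by_contra hne
      refine hc2 _ hb _ hb' (fun h' => hne (hinj a a b b' h').2)
        ⟨a.1, Sym2.mem_mk_left _ _, Sym2.mem_mk_left _ _⟩ h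
  have hdB : ∀ b : B, (univ.filter (fun a : A => R a b)).card ≤ k := by
    intro b
    refine le_trans ?_ hk1
    rw [← card_range (chromaticIndex G)]
    refine Finset.card_le_card_of_injOn (fun a => c s(a.1, b.1)) ?_ ?_
    · intro a ha
      simp only [coe_filter, mem_univ, true_and, Set.mem_ofPred_eq] at ha
      exact mem_coe.2 (mem_range.2 (hc1 _ ha))
    · intro a ha a' ha' h
      simp only [coe_filter, mem_univ, true_and, Set.mem_ofPred_eq] at ha ha'
      by_contra hne
      refine hc2 _ ha _ ha' (fun h' => hne (hinj a a' b b h').1)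
        ⟨b.1, Sym2.mem_mk_right _ _, Sym2.mem_mk_right _ _⟩ h
  -- vertex covers
  have hmA : m ≤ Fintype.card A := by
    have h1 := cover_ineq hm hcov he0 ((univ : Finset A).map ⟨Subtype.val, Subtype.val_injective⟩)
      (by
        intro e he
        obtain ⟨a, b, rfl⟩ := hends e he
        exact ⟨a.1, Sym2.mem_mk_left _ _, by simp⟩)
    rw [card_map, card_univ, ← hk] at h1
    exact Nat.le_of_mul_le_mul_left (le_trans (Nat.le_add_left _ _) h1) hkpos
  have hmB : m ≤ Fintype.card B := by
    have h1 := cover_ineq hm hcov he0 ((univ : Finset B).map ⟨Subtype.val, Subtype.val_injective⟩)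
      (by
        intro e he
        obtain ⟨a, b, rfl⟩ := hends e he
        exact ⟨b.1, Sym2.mem_mk_right _ _, by simp⟩)
    rw [card_map, card_univ, ← hk] at h1
    exact Nat.le_of_mul_le_mul_left (le_trans (Nat.le_add_left _ _) h1) hkpos
  have hC : ∀ S : Finset A,
      (∑ a ∈ Sᶜ, (univ.filter (fun b => R a b ∧ ∃ a' ∈ S, R a' b)).card) + k * m ≤
        k * (Sᶜ.card + (univ.filter (fun b => ∃ a ∈ S, R a b)).card) := by
    intro S
    set C : Finset V := Sᶜ.map ⟨Subtype.val, Subtype.val_injective⟩ ∪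
      (univ.filter (fun b : B => ∃ a ∈ S, R a b)).map ⟨Subtype.val, Subtype.val_injective⟩ with hCdef
    have h1 := cover_ineq hm hcov he0 C (by
        intro e he
        obtain ⟨a, b, rfl⟩ := hends e he
        by_cases ha : a ∈ S
        · refine ⟨b.1, Sym2.mem_mk_right _ _, mem_union_right _ ?_⟩
          exact mem_map.2 ⟨b, mem_filter.2 ⟨mem_univ _, a, ha, he⟩, rfl⟩
        · refine ⟨a.1, Sym2.mem_mk_left _ _, mem_union_left _ ?_⟩
          exact mem_map.2 ⟨a, mem_compl.2 ha, rfl⟩)
    have h2 : C.card ≤ Sᶜ.card + (univ.filter (fun b : B => ∃ a ∈ S, R a b)).card := by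
      refine (card_union_le _ _).trans ?_
      rw [card_map, card_map]
    have h3 : (∑ a ∈ Sᶜ, (univ.filter (fun b => R a b ∧ ∃ a' ∈ S, R a' b)).card) ≤
        (G.edgeFinset.filter (fun e => ∀ v ∈ e, v ∈ C)).card := by
      rw [← card_sigma (s := Sᶜ) (t := fun a => univ.filter (fun b : B => R a b ∧ ∃ a' ∈ S, R a' b))]
      refine Finset.card_le_card_of_injOn (fun x => s(x.1.1, x.2.1)) ?_ ?_
      · rintro ⟨a, b⟩ hx
        rw [mem_coe, mem_sigma, mem_filter] at hx
        rw [mem_coe, mem_filter]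
        refine ⟨SimpleGraph.mem_edgeFinset.2 hx.2.2.1, ?_⟩
        intro v hv
        rcases Sym2.mem_iff.1 hv with rfl | rfl
        · exact mem_union_left _ (mem_map.2 ⟨a, hx.1, rfl⟩)
        · exact mem_union_right _ (mem_map.2 ⟨b, mem_filter.2 ⟨mem_univ _, hx.2.2.2⟩, rfl⟩)
      · rintro ⟨a, b⟩ _ ⟨a', b'⟩ _ h
        obtain ⟨rfl, rfl⟩ := hinj a a' b b' h
        rfl
    rw [← hk] at h1
    exact (Nat.add_le_add_right h3 _).trans (h1.trans (Nat.mul_le_mul_left _ h2))
  obtain ⟨σ, hσ1, hσ2, hσ3, hσ4⟩ := core R k m hdA hdB hEsum hmA hmB hC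
  refine ⟨fun i => (univ.filter (fun x : A × B => σ i x.1 = some x.2)).image
    (fun x => s(x.1.1, x.2.1)), fun i => ⟨?_, ?_, ?_⟩, ?_⟩
  · rw [card_image_of_injOn (by
      rintro ⟨a, b⟩ _ ⟨a', b'⟩ _ h
      obtain ⟨rfl, rfl⟩ := hinj a a' b b' h
      rfl)]
    rw [← hσ3 i]
    refine Finset.card_bij (fun x _ => x.1) ?_ ?_ ?_
    · rintro ⟨a, b⟩ hx
      simp only [mem_filter, mem_univ, true_and] at hx ⊢
      rw [hx]
      rfl
    · rintro ⟨a, b⟩ hx ⟨a', b'⟩ hx' h
      simp only [mem_filter, mem_univ, true_and] at hx hx' h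
      subst h
      rw [hx] at hx'
      rw [Option.some.inj hx']
    · intro a ha
      simp only [mem_filter, mem_univ, true_and] at ha
      obtain ⟨b, hb⟩ := Option.isSome_iff_exists.1 ha
      exact ⟨(a, b), by simp [hb], rfl⟩
  · intro e he
    obtain ⟨⟨a, b⟩, hx, rfl⟩ := mem_image.1 he
    exact hσ1 i a b (mem_filter.1 hx).2
  · intro e he f hf hef v hve hvf
    obtain ⟨⟨a, b⟩, hx, rfl⟩ := mem_image.1 he
    obtain ⟨⟨a', b'⟩, hx', rfl⟩ := mem_image.1 hf
    have h1 : σ i a = some b := (mem_filter.1 hx).2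
    have h2 : σ i a' = some b' := (mem_filter.1 hx').2
    simp only [Sym2.mem_iff] at hve hvf
    rcases hve with hve | hve <;> rcases hvf with hvf | hvf
    · have haa : a = a' := Subtype.ext (hve.symm.trans hvf)
      subst haa
      rw [h1] at h2
      exact hef (by rw [Option.some.inj h2])
    · exact hAB a b' (hve.symm.trans hvf)
    · exact hAB a' b (hvf.symm.trans hve)
    · have hbb : b = b' := Subtype.ext (hve.symm.trans hvf)
      subst hbb
      exact hef (by rw [hσ2 i a a' b h1 h2])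
  · intro e
    constructor
    · intro he
      obtain ⟨a, b, rfl⟩ := hends e he
      obtain ⟨i, hi⟩ := hσ4 a b he
      exact ⟨i, mem_image.2 ⟨(a, b), mem_filter.2 ⟨mem_univ _, hi⟩, rfl⟩⟩
    · rintro ⟨i, hi⟩
      obtain ⟨⟨a, b⟩, hx, rfl⟩ := mem_image.1 hi
      exact hσ1 i a b (mem_filter.1 hx).2

end Pool.Agent.X45.EI
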